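import Pool.Agent.R900.AC.Gap

set_option autoImplicit false

/-!
# d-to-1 Label Cover is not hard under constant-depth reductions

The conjecture says that telling the d-to-1 Label Cover instances of value one from those of value
less than `ε` is `NP`-hard. Most `NP`-hardness proofs give reductions that are computed by circuits of
constant depth (`AC0`), or even by projections. Here it is shown that this is impossible for the gap
problem: a many-one reduction from parity (and so a fortiori from any `NP`-hard problem to which
parity reduces by projections) to this problem that is computed by circuits of constant depth needs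
exponential size, for all `ε < 1`, `d` and `R`. So a proof of the conjecture must use a nonlocal step
(like the low-degree or linearity codes in the PCP theorem) that creates the gap, in every reduction.

The output of the reduction is a list of slots `p`. Every slot is empty or contains an edge (two
vertices and a d-to-1 map), which is determined in an arbitrary way (`dec p`) by `b` output bits of
the circuit. So both usual encodings of instances are included: a list of edges, each one encoded by
`b` bits, and the table of all possible edges, with one bit for each of them (`b = 1`). The
definitions `slots`, `filled`, `satn` are in `Pool/Agent/R900/AC/Gap.lean`; circuits (`Circuit`,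
`nodeVal`, `nodeDepth`) are defined in `Pool/Agent/H568R2/Defs.lean`.

Idea of the proof. An instance of value one and one of value at most `ε` differ in at least
`(1 - ε) / 2` times the total number of their edges. Under a random restriction which leaves many
variables free all output bits become decision trees of small depth `s`, so that at every input at
most `b s` of the free variables are sensitive for a given slot. Count the triples of an input, a
free variable and an edge which disappears when the variable is flipped.
-/

namespace Pool.Agent.Results.MP_62e2f2_lc.ConstantDepthReductions

open Finset DomAC0 Pool.Agent.R900.AC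
open scoped Classical

/-- An edge of a d-to-1 Label Cover instance with the vertices `V` (labels `Fin R`) and `W` (labels
`Fin (d * R)`): its vertices and a map of the labels whose fibres have at most `d` elements. -/
abbrev Edge (V W : Type) (d R : ℕ) : Type :=
  V × W × {π : Fin (d * R) → Fin R // ∀ b, (univ.filter fun a => π a = b).card ≤ d}

/-- The labelings `l.1` of `V` and `l.2` of `W` satisfy the edge `e`. -/
def Sat {V W : Type} {d R : ℕ} (l : (V → Fin R) × (W → Fin (d * R))) (e : Edge V W d R) : Prop :=
  e.2.2.1 (l.2 e.2.1) = l.1 e.1

/-- The value of the instance in the slots `f` is one: some labeling satisfies all edges. -/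
def ValueOne {P V W : Type} {d R : ℕ} (f : P → Option (Edge V W d R)) : Prop :=
  ∃ l, ∀ p e, f p = some e → Sat l e

/-- The value of the instance in the slots `f` is at most `ε`: every labeling satisfies at most the
fraction `ε` of the edges. -/
def ValueAtMost {P V W : Type} [Fintype P] {d R : ℕ} (ε : ℝ) (f : P → Option (Edge V W d R)) :
    Prop :=
  ∀ l, (satn Sat f l : ℝ) ≤ ε * filled f

/-- For every depth `h` there is `X₀` with the following property. Let `C` be a circuit with `N`
inputs, with NOT gates and AND and OR gates of unbounded fan-in. For every slot `p` of a finite set
let `out p j`, `j < b`, be nodes of depth at most `h`, whose values determine the content of the slot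
by a decoder `dec p`. Let `0 ≤ ε < 1`. If for every input there is at least one edge, the value of the
instance is one for every input with an even number of ones and at most `ε` for every input with an
odd number of ones, and if `X = (1 - ε) N / b ≥ X₀`, then `C` has at least
`2 ^ (X ^ (1 / (h + 1)) / 100)` gates. -/
theorem result (h : ℕ) : ∃ X₀ : ℝ, ∀ (N : ℕ) (C : Circuit (Fin N)) (P V W : Type) [Fintype P]
    (d R b : ℕ) (out : P → Fin b → Fin N ⊕ Fin C.size)
    (dec : P → (Fin b → Bool) → Option (Edge V W d R)) (ε : ℝ),
    (∀ p j, C.nodeDepth (out p j) ≤ h) → 0 ≤ ε → ε < 1 →
    (∀ x, 1 ≤ filled (slots C out dec x)) →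
    (∀ x, ¬ Odd (univ.filter fun i => x i = true).card → ValueOne (slots C out dec x)) →
    (∀ x, Odd (univ.filter fun i => x i = true).card → ValueAtMost ε (slots C out dec x)) →
    X₀ ≤ (1 - ε) * N / b →
    (2 : ℝ) ^ (((1 - ε) * N / b) ^ (1 / (h + 1 : ℝ)) / 100) ≤ C.size := by
  obtain ⟨X₀, -, hX⟩ := main h
  refine ⟨X₀, ?_⟩
  intro N C P V W _ d R b out dec ε h1 h3 h4 h5 h6 h7 h8
  refine hX C out dec (1 - ε) h1 (by linarith) h5 (fun x y hx hy => ?_) h8
  have h9 := differ Sat (slots C out dec x) (slots C out dec y) 0 ε le_rfl h3 ?_ (h7 y hy)
  · rwa [sub_zero] at h9
  · obtain ⟨l, hl⟩ := h6 x hx
    refine ⟨l, ?_⟩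
    rw [sub_zero, one_mul]
    unfold filled satn
    refine Nat.cast_le.2 (card_le_card fun p hp => ?_)
    rw [mem_filter] at hp ⊢
    obtain ⟨e, he⟩ := Option.ne_none_iff_exists'.1 hp.2
    exact ⟨hp.1, e, he, hl p e he⟩

end Pool.Agent.Results.MP_62e2f2_lc.ConstantDepthReductions
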