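import Pool.Agent.R562.RS.Game

set_option autoImplicit false

/-!
# Reductions to d-to-1 Label Cover which are computed by circuits with few NOT gates

The definitions used in the statement are `NotCircuit` and `NotCircuit.out` in
`Pool/Agent/R562/RS/Neg.lean` and `ToOne`, `Sat`, `ValueOne`, `ValueLe`, `GameCorrect`,
`GameReduction` in `Pool/Agent/R562/RS/Game.lean`.

A reduction from a Boolean function `f` of `N` bits to the gap problem of d-to-1 Label Cover instances (value one
versus value at most `δ`) computes a list of constraints `(u, v, π)`
(`u` is a vertex with labels in `[d R]`, `v` is a vertex with labels in `[R]`), each of which is encoded by `b`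
bits. Suppose that the value of `f` alternates `n` times along some chain of inputs, and that for
every value of the random seed all bits of the list are computed by one circuit with `t` NOT gates
and any number of other gates, each of which computes an arbitrary nondecreasing function. Then
`b (2 ^ (t + 1) - 1) ≥ (1 - 2 e) (1 - δ) n`, where `e` is the error probability of the reduction.

By the theorem of Markov about `log n` NOT gates are needed for `f` itself. So for games of size
`N ^ O(1)` a reduction needs at least `log n - log log N - O(1)` NOT gates, which is nearly the
number that is needed to compute `f` (and then no reduction is necessary): there is no hardness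
proof for d-to-1 Label Cover instances with perfect completeness and soundness `δ < 1` by reductions with fewer NOT
gates, of any size and with any encoding of the constraints. For parity `n = N`. (The starting
results on monotone circuits and faulty negations are about circuits which solve the gap problem,
for one encoding which makes it monotone.)

Proof: Two consecutive members of the chain have different answers, so the two outputs differ in a
fraction `1 - δ` of the constraints. By Markov's argument each bit changes at most
`2 ^ (t + 1) - 1` times along the chain.
-/

namespace Pool.Agent.Results.MP_62e2f2_lc.NotGates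

open Pool.Agent.R562.RS

theorem result (N t m d R b n : ℕ) (U V Ω : Type) [Fintype Ω] [Nonempty Ω] (δ e : ℝ)
    (f : (Fin N → Bool) → Bool) (c : ℕ → Fin N → Bool)
    (g : Ω → (Fin N → Bool) → Fin m → U × V × (Fin (d * R) → Fin R))
    (code : U × V × (Fin (d * R) → Fin R) → Fin b → Bool) (hm : 1 ≤ m) (hδ : δ ≤ 1)
    (hcode : Function.Injective code)
    (hc : ∀ s i, c s i ≤ c (s + 1) i) (hf : ∀ s < n, f (c (s + 1)) ≠ f (c s))
    (hr : GameReduction d δ e f g)
    (hC : ∀ ω, ∃ C : NotCircuit N t (Fin m × Fin b), ∀ x j l, C.out x (j, l) = code (g ω x j) l) :
    (1 - 2 * e) * (1 - δ) * n ≤ b * (2 ^ (t + 1) - 1) := by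
  have : Nonempty (Fin m) := ⟨⟨0, by omega⟩⟩
  exact game_not hδ c hc hf code hcode hr hC

end Pool.Agent.Results.MP_62e2f2_lc.NotGates
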