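import Pool.Agent.R562.RS.Game

set_option autoImplicit false

/-!
# Reductions to d-to-1 Label Cover whose constraints are computed by quantum queries

The definitions used in the statement are `sens` and `avgSens` (average sensitivity) and `parity` in
`Pool/Agent/R562/RS/Core.lean`, `QuantumAlgorithm` and `QuantumAlgorithm.prob` in
`Pool/Agent/R562/RS/Quant.lean`, and `ToOne`, `Sat`, `ValueOne`, `ValueLe`, `GameCorrect`,
`GameReduction` in `Pool/Agent/R562/RS/Game.lean`.

A reduction from a Boolean function `f` of `N` bits to the gap problem of d-to-1 Label Cover instances (value one
versus value at most `δ`) computes a list of constraints `(u, v, π)`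
(`u` is a vertex with labels in `[d R]`, `v` is a vertex with labels in `[R]`). Suppose that every constraint
is computed, with error probability at most `p`, by a quantum algorithm with `T` queries to the `N`
bits; its other operations are free. Then `2 T ≥ (1 - 2 √(p (1 - p))) (1 - 2 e) (1 - δ) avgSens f`,
where `e` is the error probability of the reduction. For parity the average sensitivity is `N`. So
reductions without errors whose constraints are computed without errors need `T ≥ (1 - δ) N / 2`
queries per constraint, where `⌈N / 2⌉` queries are enough to compute parity itself: as `δ` tends to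
zero the average constraint becomes as hard as the whole problem. In particular there is no
NP-hardness proof with perfect completeness and any soundness `δ < 1` by reductions with `o(N)`
quantum queries per constraint. The number of vertices and the alphabet do not matter.

Proof: A game of value one and a game of value at most `δ` differ in a fraction `1 - δ` of the
constraints. So some constraint has average sensitivity at least `(1 - 2 e) (1 - δ) avgSens f`. The
amplitudes of a quantum algorithm are polynomials of degree at most `T`, so the total influence of
the vector of the amplitudes is at most `4 T`, and it is at least `2 (1 - 2 √(p (1 - p)))` times the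
average sensitivity of the constraint.
-/

namespace Pool.Agent.Results.MP_62e2f2_lc.QuantumReductions

open Pool.Agent.R562.RS

theorem result :
    (∀ (N T m d R : ℕ) (U V Ω : Type) [Fintype Ω] [Nonempty Ω] (δ e p : ℝ)
      (f : (Fin N → Bool) → Bool)
      (g : Ω → (Fin N → Bool) → Fin m → U × V × (Fin (d * R) → Fin R)),
      1 ≤ m → δ ≤ 1 → 0 ≤ p → p ≤ 1 / 2 → GameReduction d δ e f g →
      (∀ ω j, ∃ Q : QuantumAlgorithm N T (U × V × (Fin (d * R) → Fin R)),
        ∀ x, 1 - p ≤ Q.prob x (g ω x j)) →
      (1 - 2 * Real.sqrt (p * (1 - p))) * ((1 - 2 * e) * (1 - δ) * avgSens f) ≤ 2 * T) ∧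
    ∀ N : ℕ, avgSens (parity N) = N := by
  refine ⟨?_, avgSens_parity⟩
  intro N T m d R U V Ω _ _ δ e p f g hm hδ hp0 hp hr hA
  have : Nonempty (Fin m) := ⟨⟨0, by omega⟩⟩
  exact game_quantum hδ hp0 hp hr hA

end Pool.Agent.Results.MP_62e2f2_lc.QuantumReductions
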